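import Pool.Agent.H902R3.ZA.Defs
import Pool.Agent.H902R3.ZA.LBM
import Pool.Agent.H902R3.ZA.PLA
import Pool.Agent.H902R3.ZA.PLN
import Pool.Agent.H902R3.ZA.RES
import Pool.Agent.H902R3.ZA.DOM
import Pool.Agent.H902R3.ZA.SEC
import Pool.Agent.H902R3.ZA.SC
import Pool.Agent.H902R3.ZA.LAW
import Pool.Agent.H902R3.ZA.LOW
import Pool.Agent.H902R3.ZA.PHI
import Pool.Agent.H902R3.ZA.ROT
import Pool.Agent.H902R3.ZA.QJ
import Pool.Agent.H902R3.ZA.JEN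
import Pool.Agent.H902R3.ZA.MEAN
import Pool.Agent.H902R3.ZA.FIX
import Pool.Agent.H902R3.ZA.TWO
import Pool.Agent.H902R3.ZA.SHI
import Pool.Agent.H902R3.ZA.AVG
import Pool.Agent.H902R3.ZA.COL
import Pool.Agent.H902R3.ZA.STEPL
import Pool.Agent.H902R3.ZA.STEP
import Pool.Agent.H902R3.ZA.ITER
import Pool.Agent.H902R3.ZA.ZSUP
import Pool.Agent.H902R3.ZA.ZOND
import Pool.Agent.H902R3.ZA.FIN
import Pool.Agent.H172R2.ZS.LEW
import Pool.Agent.H172R2.ZS.BAS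
import Pool.Agent.H172R2.ZS.ONE
import Pool.Agent.H172R2.ZS.DET
import Pool.Agent.H172R2.ZS.MAP
import Pool.Agent.H172R2.ZS.GAU
import Pool.Agent.H172R2.GS.HAM

/-!
# MP_2c1b2b_gt: every zonoid in `ℝⁿ` is approximated by a zonotope with `O(n / ε ^ 2)` segments

There is an absolute constant `C` such that for every `n`, every origin-symmetric zonoid
`K ⊆ ℝⁿ` and every `0 < ε < 1` there is a zonotope `Z`, a sum of at most `C n / ε ^ 2` segments,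
with `Z ⊆ K ⊆ (1 + ε) Z`.  Hence `N(K, ε) ≤ (C / ε ^ 2) n`: the factor `log n` in Talagrand's bound
is not necessary, and Q1 has a positive answer.
-/

set_option autoImplicit false

open scoped Pointwise ENNReal

namespace Pool.Agent.Results.MP_2c1b2b_gt.LinearSegments

/-- Euclidean space `ℝⁿ` -/
abbrev E (n : ℕ) : Type := EuclideanSpace ℝ (Fin n)

/-- the Minkowski sum `[-v₁, v₁] + ... + [-v_M, v_M]` -/
def segSum {n M : ℕ} (v : Fin M → E n) : Set (E n) :=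
  {x | ∃ t : Fin M → ℝ, (∀ j, t j ∈ Set.Icc (-1 : ℝ) 1) ∧ x = ∑ j, t j • v j}

/-- `Z` is a zonotope, a sum of `M` segments, up to translation -/
def IsZonotope {n : ℕ} (M : ℕ) (Z : Set (E n)) : Prop :=
  ∃ (z : E n) (v : Fin M → E n), Z = {x | ∃ y ∈ segSum v, x = z + y}

/-- `K` is an origin-symmetric zonoid: an origin-symmetric convex body (compact, convex, with
nonempty interior) which is a limit of zonotopes in the Hausdorff metric -/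
def IsZonoid {n : ℕ} (K : Set (E n)) : Prop :=
  Convex ℝ K ∧ IsCompact K ∧ (interior K).Nonempty ∧ (∀ x ∈ K, -x ∈ K) ∧
    ∀ δ : ℝ, 0 < δ → ∃ (M : ℕ) (Z : Set (E n)), IsZonotope M Z ∧ Metric.hausdorffDist K Z < δ

/-- the Banach-Mazur distance `d(K, L) = inf {r ≥ 1 : ∃ T ∈ GL(n), L ⊆ T K ⊆ r L}`, with value
`⊤` when there are no such `r` and `T` -/
noncomputable def bmDist {n : ℕ} (K L : Set (E n)) : ℝ≥0∞ :=
  sInf {ρ : ℝ≥0∞ | ∃ r : ℝ, 1 ≤ r ∧ ρ = ENNReal.ofReal r ∧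
    ∃ T : E n ≃ₗ[ℝ] E n, L ⊆ T '' K ∧ T '' K ⊆ r • L}

/-- `N(K, ε)`: the least `M` such that some (origin-symmetric) zonotope `Z`, a sum of `M`
segments, has `d(Z, K) ≤ 1 + ε` -/
noncomputable def segNumber {n : ℕ} (K : Set (E n)) (ε : ℝ) : ℕ :=
  sInf {M : ℕ | ∃ v : Fin M → E n, bmDist (segSum v) K ≤ ENNReal.ofReal (1 + ε)}

open Pool.Agent.H902R3.ZA Pool.Agent.H172R2.ZS in
/-- all steps together -/
theorem main : S_FIN := by
  have hGAU : Pool.Agent.H172R2.ZS.S_GAU := GAU_ok (MAP_ok ONE_ok BAS_ok DET_ok)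
  have hHAM : Pool.Agent.H172R2.ZS.S_HAM := Pool.Agent.H172R2.GS.HAM_ok
  have hPLN : S_PLN := PLN_ok (PLA_ok LBM_ok)
  have hDOM : S_DOM := DOM_ok RES_ok
  have hSC : S_SC := SC_ok RES_ok (SEC_ok hPLN)
  have hLOW : S_LOW := LOW_ok hDOM hSC LAW_ok hGAU
  have hJEN : S_JEN := JEN_ok hPLN ROT_ok QJ_ok
  have hTWO : S_TWO := TWO_ok hLOW PHI_ok hJEN MEAN_ok (FIX_ok PHI_ok)
  have hCOL : S_COL := COL_ok SHI_ok AVG_ok hHAM
  exact FIN_ok (ITER_ok (STEP_ok (STEPL_ok hTWO hCOL) LEW_ok BAS_ok)) ZSUP_ok ZOND_ok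

/-- **Theorem.**  Linear number of segments for all zonoids. -/
theorem result : ∃ C : ℝ, 0 < C ∧
    ∀ (n : ℕ) (K : Set (EuclideanSpace ℝ (Fin n))), IsZonoid K →
    ∀ ε : ℝ, 0 < ε → ε < 1 →
      (segNumber K ε : ℝ) ≤ C / ε ^ 2 * n ∧
      ∃ (M : ℕ) (v : Fin M → EuclideanSpace ℝ (Fin n)), (M : ℝ) ≤ C / ε ^ 2 * n ∧
        segSum v ⊆ K ∧ K ⊆ (1 + ε) • segSum v := by
  obtain ⟨C, hC, h⟩ := main
  refine ⟨C, hC, fun n K hK ε hε hε1 => ?_⟩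
  obtain ⟨M, v, hM, hZK, hKZ⟩ := h n K hK ε hε hε1
  have hM' : (M : ℝ) ≤ C / ε ^ 2 * n := hM.trans (le_of_eq (by ring))
  have hsub : K ⊆ (1 + ε) • segSum v := fun x hx => by
    obtain ⟨y, hy, rfl⟩ := hKZ x hx
    exact Set.smul_mem_smul_set hy
  refine ⟨le_trans ?_ hM', M, v, hM', hZK, hsub⟩
  have hmem : M ∈ {M : ℕ | ∃ v : Fin M → E n,
      bmDist (segSum v) K ≤ ENNReal.ofReal (1 + ε)} := by
    refine ⟨v, sInf_le ⟨1 + ε, by linarith, rfl, ?_⟩⟩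
    refine ⟨LinearEquiv.smulOfNeZero ℝ (E n) (1 + ε) (by linarith), ?_, ?_⟩
    · intro x hx
      obtain ⟨y, hy, hxy⟩ := hsub hx
      exact ⟨y, hy, by simpa using hxy⟩
    · rintro _ ⟨y, hy, rfl⟩
      exact ⟨y, hZK hy, by simp⟩
  exact_mod_cast Nat.sInf_le hmem

end Pool.Agent.Results.MP_2c1b2b_gt.LinearSegments
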